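import Pool.Agent.Q83.NT.Thr

/-!
# Cubic averages at randomly displaced times

`θ_i(n)`, `i = 0, 1, 2`, `n ≥ 1`, are independent random integers, `θ_i(n)` uniform on
`{0, ..., L_i(n) - 1}`; every amplitude `L_i` either tends to infinity (`i ∈ J`) with `L_i(n) = n^{o(1)}`
or is a constant `l_i`. For almost every choice of the displacements, for all invertible measure
preserving systems and all `f_i ∈ L^∞` at once, the averages of
`f_0(T^{n + θ_0(n)} x) f_1(T^{2n + θ_1(n)} x) f_2(T^{3n + θ_2(n)} x)` are asymptotic to
`∏_{i ∈ J} E(f_i | I)(x)` times the averages of the product over `i ∉ J` of the means of `f_i` over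
`l_i` consecutive points, at the times `(i + 1) n`. Hence a displacement of unbounded amplitude,
however slowly it grows, removes a factor, and displacements of bounded amplitude do not change the
question: for `J = ∅` the displaced question is equivalent to the undisplaced one.

Proof: for one weight `w`, the mean square of `∑ w(n) ∏ f_i(T^{(i+1)n} x)` is bounded, by van der
Corput's method without averaging over the shifts, by a quantity which depends on `w` only; for
centred independent weights its expectation is `O(N^{2 - 2^{-m}})`. The labels (values of the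
displacements) are `N^{o(1)}` in number, so the sum over all labels is small along a sequence `N_j`
of polynomial growth for almost all displacements and all systems. Long means of `f_i` are close to
`E(f_i | I)` outside small sets, whose visit frequencies are controlled by Birkhoff's theorem. For the
equivalence, products with finite rotations single out residue classes of times.
-/

set_option autoImplicit false

open MeasureTheory ProbabilityTheory Filter Topology

namespace Pool.Agent.Results.MP_9721b5_an.DisplacedTimes

open Pool.Agent.Q83.NT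

/-- Almost surely, for all systems: displacements of unbounded amplitude replace `f_i` by its
conditional expectation on the invariant sets, and displacements of bounded amplitude replace the
question by an equivalent one. -/
theorem result {Ω : Type*} [MeasurableSpace Ω] (P : Measure Ω) [IsProbabilityMeasure P]
    (θ : Fin 3 → ℕ → Ω → ℕ) (L : Fin 3 → ℕ → ℕ) (hθ : IsNoise P θ L)
    (hslow : ∀ q : ℕ, ∃ C : ℕ, ∀ i, ∀ n : ℕ, 1 ≤ n → L i n ^ q ≤ C * n)
    (J : Finset (Fin 3)) (hJ : ∀ i ∈ J, Tendsto (L i) atTop atTop) (l : Fin 3 → ℕ)
    (hl : ∀ i ∉ J, ∀ n, L i n = l i) :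
    ∀ᵐ ω ∂P,
      (∀ (X : Type) [MeasurableSpace X] (μ : Measure X) [IsProbabilityMeasure μ]
        (T : Equiv.Perm X), Measurable T.symm → MeasurePreserving T μ μ →
        ∀ f : Fin 3 → X → ℝ, (∀ i, MemLp (f i) ⊤ μ) →
        ∀ᵐ x ∂μ, Tendsto (fun N : ℕ =>
          (N : ℝ)⁻¹ * (∑ n ∈ Finset.Icc 1 N,
            ∏ i, f i ((T ^ (((i : ℤ) + 1) * (n : ℤ) + (θ i n ω : ℤ))) x)) -
          (∏ i ∈ J, (μ[f i | MeasurableSpace.invariants T]) x) *
          ((N : ℝ)⁻¹ * ∑ n ∈ Finset.Icc 1 N,
            ∏ i ∈ Jᶜ, mn T (l i) (f i) ((T ^ (((i : ℤ) + 1) * (n : ℤ))) x))) atTop (𝓝 0)) ∧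
      (ConvNat Finset.univ (fun (i : Fin 3) n => ((i : ℤ) + 1) * (n : ℤ) + (θ i n ω : ℤ)) ↔
        ConvNat Jᶜ fun (i : Fin 3) (n : ℕ) => ((i : ℤ) + 1) * (n : ℤ)) :=
  thr_nat hθ hslow J hJ l hl (fun i => (i : ℤ) + 1) fun i => by positivity

end Pool.Agent.Results.MP_9721b5_an.DisplacedTimes
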