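import Pool.Agent.Q161.MsC
import Pool.Agent.Q161.MsE

/-! # A finitary form of the question about cubic progression averages

The question is equivalent to a statement about one subset of a finite cyclic group, and to a uniform
statement about all systems and all functions bounded by one. -/

set_option autoImplicit false

open MeasureTheory Filter Topology
open scoped ENNReal

namespace Pool.Agent.Results.MP_9721b5_an.FinitaryForm

open Pool.Agent.Q161

/-- The averages of the problem at the point `x`. -/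
noncomputable def avg {X : Type} (T : X → X) (f g h : X → ℝ) (x : X) (N : ℕ) : ℝ :=
  (N : ℝ)⁻¹ * ∑ n ∈ Finset.Icc 1 N, f (T^[n] x) * g (T^[2 * n] x) * h (T^[3 * n] x)

/-- The affirmative answer to the question. -/
def Question : Prop :=
  ∀ (X : Type) [MeasurableSpace X] (μ : Measure X) [IsProbabilityMeasure μ] (T : X → X),
    MeasurePreserving T μ μ →
    ∀ f g h : X → ℝ, MemLp f ⊤ μ → MemLp g ⊤ μ → MemLp h ⊤ μ →
      ∀ᵐ x ∂μ, ∃ L : ℝ, Tendsto (avg T f g h x) atTop (𝓝 L)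

/-- Uniform metastability: `K` depends only on `ε` and `Φ`. -/
def UniformRate : Prop :=
  ∀ ε : ℝ, 0 < ε → ∀ Φ : ℕ → ℕ, ∃ K : ℕ,
    ∀ (X : Type) [MeasurableSpace X] (μ : Measure X) [IsProbabilityMeasure μ] (T : X → X),
    MeasurePreserving T μ μ →
    ∀ f g h : X → ℝ, Measurable f → Measurable g → Measurable h →
      (∀ x, |f x| ≤ 1) → (∀ x, |g x| ≤ 1) → (∀ x, |h x| ≤ 1) →
      ∃ N, 1 ≤ N ∧ N ≤ K ∧
        μ {x | ∃ n, N ≤ n ∧ n ≤ Φ N ∧ ε < |avg T f g h x n - avg T f g h x N|} ≤ ENNReal.ofReal ε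

/-- The density of the `k`, `1 ≤ k ≤ n`, with `x + k`, `x + 2k`, `x + 3k` in `A`. -/
noncomputable def density {M : ℕ} (A : Set (ZMod M)) (n : ℕ) (x : ZMod M) : ℝ :=
  (Nat.card {k : ℕ // 1 ≤ k ∧ k ≤ n ∧ x + k ∈ A ∧ x + 2 * k ∈ A ∧ x + 3 * k ∈ A} : ℝ) / n

/-- The finitary statement about subsets of cyclic groups. -/
def Finitary : Prop :=
  ∀ ε : ℝ, 0 < ε → ∀ Φ : ℕ → ℕ, ∃ K : ℕ, ∀ M : ℕ, 0 < M → ∀ A : Set (ZMod M),
    ∃ N, 1 ≤ N ∧ N ≤ K ∧
      (Nat.card {x : ZMod M // ∃ n, N ≤ n ∧ n ≤ Φ N ∧ ε < |density A n x - density A N x|} : ℝ) ≤ ε * M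

lemma av_eq {X : Type} (T : X → X) (f g h : X → ℝ) (x : X) (N : ℕ) :
    Ms.av (fun N : ℕ => (N : ℝ)⁻¹) (fun N => Finset.Icc 1 N) (fun (j : Fin 3) n => T^[((j : ℕ) + 1) * n])
      ![f, g, h] x N = avg T f g h x N := by
  unfold Ms.av avg
  congr 1
  refine Finset.sum_congr rfl fun n _ => ?_
  rw [Fin.prod_univ_three]
  simp

lemma weight_le (t : ℕ) : ‖((t : ℝ))⁻¹‖ * (Finset.Icc 1 t).card ≤ 1 := by
  rw [Nat.card_Icc, Nat.add_sub_cancel, norm_inv, Real.norm_natCast]
  exact inv_mul_le_one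

lemma question_uniform (hQ : Question) : UniformRate := by
  intro ε hε Φ
  have h1 := Ms.meta_uniform (Γ := Multiplicative ℕ) (J := Fin 3) (I := ℕ) (Θ := ℕ) (𝕜 := ℝ) atTop
    (fun N : ℕ => (N : ℝ)⁻¹) (fun N => Finset.Icc 1 N) (fun j n => Multiplicative.ofAdd (((j : ℕ) + 1) * n))
    (fun N R => Finset.Icc N R) (fun N => N) (by
      intro U hU
      obtain ⟨a, ha⟩ := mem_atTop_sets.1 hU
      filter_upwards [eventually_ge_atTop a] with N hN
      refine ⟨ha N hN, fun R t ht => ?_⟩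
      rw [Finset.mem_Icc] at ht
      exact ha t (hN.trans ht.1)) (by
      intro ν hν
      have hit : ∀ n : ℕ, (Ms.sh (Multiplicative.ofAdd 1) :
          Ms.Conf (Multiplicative ℕ) (Fin 3) ℝ → Ms.Conf (Multiplicative ℕ) (Fin 3) ℝ)^[n] =
          Ms.sh (Multiplicative.ofAdd n) := by
        intro n
        induction n with
        | zero => rw [Function.iterate_zero]; exact Ms.sh_one.symm
        | succ n ih =>
          rw [Function.iterate_succ, ih, ← Ms.sh_mul]
          rfl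
      have hcoord : ∀ j : Fin 3, MemLp (fun ω : Ms.Conf (Multiplicative ℕ) (Fin 3) ℝ =>
          ((ω 1 j : Metric.closedBall (0 : ℝ) 1) : ℝ)) ⊤ (ν : Measure (Ms.Conf (Multiplicative ℕ) (Fin 3) ℝ)) := by
        intro j
        apply memLp_top_of_bound (C := 1)
        · refine Measurable.aestronglyMeasurable ?_
          exact measurable_subtype_coe.comp ((measurable_pi_apply j).comp (measurable_pi_apply 1))
        · refine Eventually.of_forall fun ω => ?_
          have h2 := (ω 1 j).2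
          rw [mem_closedBall_zero_iff] at h2
          exact h2
      have h2 := hQ _ (ν : Measure (Ms.Conf (Multiplicative ℕ) (Fin 3) ℝ)) (Ms.sh (Multiplicative.ofAdd 1))
        (hν _) _ _ _ (hcoord 0) (hcoord 1) (hcoord 2)
      filter_upwards [h2] with ω hω
      obtain ⟨l, hl⟩ := hω
      refine ⟨l, hl.congr fun N => ?_⟩
      rw [← av_eq]
      unfold Ms.av
      congr 1
      refine Finset.sum_congr rfl fun n _ => ?_
      refine Finset.prod_congr rfl fun j _ => ?_
      simp only [hit]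
      fin_cases j <;> rfl) ε hε Φ
  obtain ⟨K, hK⟩ := h1
  refine ⟨K, ?_⟩
  intro X _ μ _ T hT f g h hf hg hh bf bg bh
  obtain ⟨N, hN1, hN2, hN3⟩ := hK X μ (fun g => T^[Multiplicative.toAdd g]) (by
      intro a b
      exact Function.iterate_add T _ _) (fun a => hT.iterate _) ![f, g, h] (by
      intro j
      fin_cases j
      · exact hf
      · exact hg
      · exact hh) (by
      intro j x
      fin_cases j
      · exact bf x
      · exact bg x
      · exact bh x)
  refine ⟨N, hN1, hN2, le_trans (measure_mono ?_) hN3⟩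
  rintro x ⟨n, h1, h2, h3⟩
  refine ⟨n, Finset.mem_Icc.2 ⟨h1, h2⟩, ?_⟩
  have h4 : ∀ n, Ms.av (fun N : ℕ => (N : ℝ)⁻¹) (fun N => Finset.Icc 1 N)
      (fun (j : Fin 3) n => T^[Multiplicative.toAdd (Multiplicative.ofAdd (((j : ℕ) + 1) * n))])
      ![f, g, h] x n = avg T f g h x n := fun n => av_eq T f g h x n
  rw [h4, h4, Real.dist_eq]
  exact h3

lemma iter_zmod {M : ℕ} (x : ZMod M) (k : ℕ) : (fun i : ZMod M => i + 1)^[k] x = x + k := by
  induction k with
  | zero => simp
  | succ k ih =>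
    rw [Function.iterate_succ_apply', ih]
    push_cast
    ring

open Classical in
lemma avg_density {M : ℕ} (A : Set (ZMod M)) (n : ℕ) (x : ZMod M) :
    avg (fun i : ZMod M => i + 1) (A.indicator 1) (A.indicator 1) (A.indicator 1) x n = density A n x := by
  unfold avg density
  rw [div_eq_inv_mul]
  congr 1
  have h1 : Nat.card {k : ℕ // 1 ≤ k ∧ k ≤ n ∧ x + k ∈ A ∧ x + 2 * k ∈ A ∧ x + 3 * k ∈ A} =
      ((Finset.Icc 1 n).filter (fun k : ℕ => x + k ∈ A ∧ x + 2 * k ∈ A ∧ x + 3 * k ∈ A)).card := by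
    rw [Nat.subtype_card]
    intro k
    rw [Finset.mem_filter, Finset.mem_Icc, and_assoc]
  rw [h1, Finset.card_eq_sum_ones, Finset.sum_filter]
  push_cast
  refine Finset.sum_congr rfl fun k _ => ?_
  rw [iter_zmod, iter_zmod, iter_zmod]
  push_cast
  simp only [Set.indicator_apply, Pi.one_apply]
  by_cases h2 : x + k ∈ A <;> by_cases h3 : x + 2 * k ∈ A <;> by_cases h4 : x + 3 * k ∈ A <;> simp [h2, h3, h4]

lemma uniform_finitary (hU : UniformRate) : Finitary := by
  intro ε hε Φ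
  obtain ⟨K, hK⟩ := hU ε hε Φ
  refine ⟨K, ?_⟩
  intro M hM A
  have : NeZero M := ⟨hM.ne'⟩
  have := Ms.unif_prob M
  have hm : Measurable (A.indicator (1 : ZMod M → ℝ)) := measurable_of_countable _
  have hb : ∀ x, |A.indicator (1 : ZMod M → ℝ) x| ≤ 1 := by
    intro x
    by_cases h : x ∈ A <;> simp [h]
  obtain ⟨N, h1, h2, h3⟩ := hK (ZMod M) (Ms.unif M) (fun i => i + 1) (Ms.unif_pres M) _ _ _ hm hm hm hb hb hb
  refine ⟨N, h1, h2, ?_⟩
  rw [Ms.unif_apply, ENNReal.ofReal_le_ofReal_iff hε.le, div_le_iff₀ (by exact_mod_cast hM)] at h3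
  refine le_trans (le_of_eq ?_) h3
  congr 1
  simp only [avg_density]
  rfl

lemma bad_iff {M : ℕ} (A : Set (ZMod M)) (Φ : ℕ → ℕ) (ε : ℝ) (N : ℕ) (x : ZMod M) :
    (∃ n, N ≤ n ∧ n ≤ Φ N ∧ ε < |density A n x - density A N x|) ↔
      Ms.Bad (fun j => x + (j : ZMod M) ∈ A) Φ ε N 0 := by
  classical
  have h1 : ∀ n, density A n x = (Ms.cnt (fun j => x + (j : ZMod M) ∈ A) n 0 : ℝ) / n := by
    intro n
    unfold density Ms.cnt
    congr 2
    rw [Nat.subtype_card]
    intro k
    rw [Finset.mem_filter, Finset.mem_Icc, and_assoc]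
    simp only [zero_add]
    push_cast
    rfl
  unfold Ms.Bad
  simp only [h1]

lemma finitary_sets (hF : Finitary) (X : Type) [MeasurableSpace X] (μ : Measure X) [IsProbabilityMeasure μ]
    (T : X → X) (hT : MeasurePreserving T μ μ) (E : Set X) (hE : MeasurableSet E) : Ms.ConvSet μ T E := by
  apply Ms.conv_of_meta μ (fun (n : ℕ) (x : X) => (Ms.cnt (fun j => T^[j] x ∈ E) n 0 : ℝ) / n) atTop
    (fun N R => Set.Icc N R) (fun N => N)
  · intro N
    filter_upwards [eventually_ge_atTop N] with t ht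
    exact ⟨t, ht, le_rfl⟩
  · intro N R R' hR t ht
    exact ⟨ht.1, ht.2.trans hR⟩
  · intro ε hε Φ
    by_contra hcon
    push Not at hcon
    obtain ⟨K, hK⟩ := hF (ε / 2) (by linarith) Φ
    obtain ⟨M, hM, A, hA⟩ := Ms.finite_approx μ T hT E hE Φ (ε / 2) (by linarith) K (by
      intro N hN1 _
      have h1 := hcon N hN1
      have h2 : μ {x | ∃ t ∈ Set.Icc N (Φ N), ε < dist ((Ms.cnt (fun j => T^[j] x ∈ E) t 0 : ℝ) / t)
          ((Ms.cnt (fun j => T^[j] x ∈ E) N 0 : ℝ) / N)} ≤ μ {x | Ms.Bad (fun j => T^[j] x ∈ E) Φ (ε / 2) N 0} := by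
        refine measure_mono ?_
        rintro x ⟨t, ht, h3⟩
        refine ⟨t, ht.1, ht.2, ?_⟩
        rw [Real.dist_eq] at h3
        linarith
      have h3 := h1.trans_le h2
      rw [ENNReal.ofReal_lt_iff_lt_toReal hε.le (measure_ne_top _ _)] at h3
      unfold Measure.real
      linarith)
    obtain ⟨N, hN1, hN2, hN3⟩ := hK M hM A
    have h4 := hA N hN1 hN2
    simp only [bad_iff] at hN3
    linarith

lemma cnt3_eq {X : Type} (T : X → X) (A : Fin 3 → Set X) (x : X) (n : ℕ) :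
    Ms.av (fun N : ℕ => (N : ℝ)⁻¹) (fun N => Finset.Icc 1 N) (fun (j : Fin 3) n => T^[((j : ℕ) + 1) * n])
      (fun j => (A j).indicator 1) x n = (Ms.cnt3 T A x n : ℝ) / n := by
  classical
  unfold Ms.av Ms.cnt3
  rw [div_eq_inv_mul]
  congr 1
  rw [Finset.card_eq_sum_ones, Finset.sum_filter]
  push_cast
  refine Finset.sum_congr rfl fun k _ => ?_
  rw [Fin.prod_univ_three]
  have e0 : (((0 : Fin 3) : ℕ) + 1) * k = k := by simp
  have e1 : (((1 : Fin 3) : ℕ) + 1) * k = 2 * k := by simp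
  have e2 : (((2 : Fin 3) : ℕ) + 1) * k = 3 * k := by simp
  rw [e0, e1, e2]
  simp only [Set.indicator_apply, Pi.one_apply]
  by_cases h2 : T^[k] x ∈ A 0 <;> by_cases h3 : T^[2 * k] x ∈ A 1 <;> by_cases h4 : T^[3 * k] x ∈ A 2 <;>
    simp [h2, h3, h4]

lemma finitary_question (hF : Finitary) : Question := by
  intro X _ μ _ T hT f g h hf hg hh
  have h1 := Ms.conv_of_bdd μ atTop (fun N : ℕ => (N : ℝ)⁻¹) (fun N => Finset.Icc 1 N)
    (fun (j : Fin 3) n => T^[((j : ℕ) + 1) * n]) (fun j i => (hT.iterate _).quasiMeasurePreserving)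
    (by
      apply Ms.conv_of_sets μ atTop _ _ weight_le
      intro A hA
      have h2 := Ms.three_of_one T μ hT (fun Y _ ν _ S hS E hE => finitary_sets hF Y ν S hS E hE) A hA
      filter_upwards [h2] with x hx
      obtain ⟨l, hl⟩ := hx
      exact ⟨l, hl.congr fun n => (cnt3_eq T A x n).symm⟩)
    ![f, g, h] (by
      intro j
      fin_cases j
      · exact hf
      · exact hg
      · exact hh)
  filter_upwards [h1] with x hx
  obtain ⟨l, hl⟩ := hx
  exact ⟨l, hl.congr fun n => av_eq T f g h x n⟩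

theorem result : (Question ↔ UniformRate) ∧ (Question ↔ Finitary) :=
  ⟨⟨question_uniform, fun h => finitary_question (uniform_finitary h)⟩,
    ⟨fun h => uniform_finitary (question_uniform h), finitary_question⟩⟩

end Pool.Agent.Results.MP_9721b5_an.FinitaryForm
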