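import Pool.Agent.Q96.UN.Main

/-!
# Multiple averages of arbitrary systems with one quantitatively uniform function

`(X, μ, T)` is an arbitrary invertible measure preserving system, and `𝒴` is a `T`-invariant
sub-`σ`-algebra (a factor, possibly trivial). The cube averages of a function `u` are
`c_H(u) = H^{-m} ∑_{h ∈ {0, …, H-1}^m} ∫ |E(∏_{ω ⊆ {1, …, m}} u (T^{∑_{i ∈ ω} h_i} x) | 𝒴)| dμ`,
defined below by recursion on `m`. For a trivial factor these are averages of the absolute values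
of the correlations of `u` over cubes. The function `u` is called quantitatively uniform of order
`m` over `𝒴` if `∑_e c_{2^e}(u)^{1/2^{m-1}} < ∞`, for instance if `c_H(u) = O(log^{-C} H)` for some
`C > 2^{m-1}`. If `T = S × R` with `S` arbitrary and `R` mixing of order `2^m` with a rate for a
dense class of functions, or if `T` is a skew product with such fibres, then this holds over the
factor of the first coordinate for a class of functions which spans, together with the functions of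
the factor, a dense space; in particular there are many such systems of entropy zero over an
arbitrary factor.
-/

set_option autoImplicit false

open Filter Topology MeasureTheory
open scoped ENNReal

namespace Pool.Agent.Results.MP_9721b5_an.UniformFunctions

/-- The average over `h ∈ {0, …, H-1}^k` of
`∫ |E(∏_{ω ⊆ {1, …, k}} u (T^{∑_{i ∈ ω} h_i} x) | 𝒴)| dμ`. -/
noncomputable def cubeAverage {X : Type*} {mX : MeasurableSpace X} (μ : Measure X)
    (𝒴 : MeasurableSpace X) (T : X → X) (H : ℕ) : ℕ → (X → ℝ) → ℝ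
  | 0, u => ∫ x, |(μ[u | 𝒴]) x| ∂μ
  | k + 1, u => (H : ℝ)⁻¹ * ∑ h ∈ Finset.range H,
      cubeAverage μ 𝒴 T H k fun x => u x * u (T^[h] x)

/-- The function `u` with values in `[-1, 1]` is quantitatively uniform of order `m` over `𝒴`. -/
def QuantUniform {X : Type*} {mX : MeasurableSpace X} (μ : Measure X) (𝒴 : MeasurableSpace X)
    (T : X → X) (m : ℕ) (u : X → ℝ) : Prop :=
  Measurable[mX] u ∧ (∀ x, |u x| ≤ 1) ∧
    Summable fun e : ℕ => cubeAverage μ 𝒴 T (2 ^ e) m u ^ ((1 : ℝ) / 2 ^ (m - 1))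

/-- `f` is the limit in `L¹` of finite sums `∑ v_i u_i` with quantitatively uniform `u_i` and
bounded `𝒴`-measurable `v_i`. -/
def IsUniform {X : Type*} {mX : MeasurableSpace X} (μ : Measure X) (𝒴 : MeasurableSpace X)
    (T : X → X) (m : ℕ) (f : X → ℂ) : Prop :=
  ∀ ε : ℝ, 0 < ε → ∃ (n : ℕ) (u : Fin n → X → ℝ) (v : Fin n → X → ℂ),
    (∀ i, QuantUniform μ 𝒴 T m (u i)) ∧
    (∀ i, Measurable[𝒴] (v i) ∧ ∃ C : ℝ, ∀ x, ‖v i x‖ ≤ C) ∧
    ∫ x, ‖f x - ∑ i, v i x * (u i x : ℂ)‖ ∂μ ≤ ε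

theorem cube_eq {X : Type*} {mX : MeasurableSpace X} (μ : Measure X) (𝒴 : MeasurableSpace X)
    (T : Equiv.Perm X) (H : ℕ) : ∀ (k : ℕ) (u : X → ℝ), cubeAverage μ 𝒴 T H k u =
      Pool.Agent.Q96.UN.RD μ 𝒴 (Pool.Agent.Q96.UN.zact T) H (List.replicate k 1) u
  | 0, u => rfl
  | k + 1, u => by
    rw [List.replicate_succ]
    show (H : ℝ)⁻¹ * ∑ h ∈ Finset.range H, cubeAverage μ 𝒴 T H k (fun x => u x * u (T^[h] x)) =
      (H : ℝ)⁻¹ * ∑ h ∈ Finset.range H, Pool.Agent.Q96.UN.RD μ 𝒴 (Pool.Agent.Q96.UN.zact T) H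
        (List.replicate k 1) (Pool.Agent.Q96.UN.dd (Pool.Agent.Q96.UN.zact T) h 1 u)
    congr 1
    refine Finset.sum_congr rfl fun h _ => ?_
    rw [cube_eq μ 𝒴 T H k]
    congr 1
    funext x
    unfold Pool.Agent.Q96.UN.dd
    rw [Pool.Agent.Q96.UN.zact_smul]

theorem appr_of {X : Type*} {mX : MeasurableSpace X} {μ : Measure X} {𝒴 : MeasurableSpace X}
    {T : Equiv.Perm X} {m : ℕ} {f : X → ℂ} (h : IsUniform μ 𝒴 T m f) :
    Pool.Agent.Q96.UN.Appr μ 𝒴 (Pool.Agent.Q96.UN.QU μ 𝒴 T m) f := by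
  intro ε hε
  obtain ⟨n, u, v, h1, h2, h3⟩ := h ε hε
  refine ⟨n, u, v, fun i => ⟨(h1 i).1, (h1 i).2.1, ?_⟩, h2, h3⟩
  have h4 := (h1 i).2.2
  simp only [cube_eq] at h4
  exact h4

/-- Let `T` be any invertible measure preserving map of a probability space, let `𝒴` be a
`T`-invariant sub-`σ`-algebra, let `a_1, …, a_m` be distinct nonzero integers and let
`f_1, …, f_m ∈ L^∞`.
(1) If one of the `f_j` is uniform over `𝒴` (in the sense of `IsUniform`), then the averages of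
`∏_j f_j (T^{a_j n} x)` over `n = 1, …, N` tend to zero for almost every `x`; nothing is assumed
of the other functions.
(2) If `e_1, …, e_m ∈ L^∞` and all differences `f_j - e_j` are uniform over `𝒴`, then the averages
of `∏_j f_j (T^{a_j n} x) - ∏_j e_j (T^{a_j n} x)` tend to zero for almost every `x`.
(3) Suppose that all `f ∈ L^∞` with `E(f | 𝒴) = 0` are uniform over `𝒴`. If the averages of all
products of bounded `𝒴`-measurable functions converge almost everywhere, then so do those of all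
`f_1, …, f_m ∈ L^∞`. -/
theorem result (m : ℕ) {X : Type*} (𝒴 : MeasurableSpace X) [mX : MeasurableSpace X]
    (μ : Measure X) [IsProbabilityMeasure μ] (T : Equiv.Perm X) (hT : MeasurePreserving T μ μ)
    (hT' : Measurable T.symm) (h𝒴 : 𝒴 ≤ mX) (hinv : Measurable[𝒴, 𝒴] T)
    (a : Fin m → ℤ) (ha : ∀ j, a j ≠ 0) (hai : Function.Injective a) :
    (∀ f : Fin m → X → ℂ, (∀ j, MemLp (f j) ∞ μ) → (∃ j, IsUniform μ 𝒴 T m (f j)) →
      ∀ᵐ x ∂μ, Tendsto (fun N : ℕ => (N : ℂ)⁻¹ * ∑ n ∈ Finset.Icc 1 N,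
        ∏ j, f j ((T ^ (a j * n)) x)) atTop (𝓝 0)) ∧
    (∀ f e : Fin m → X → ℂ, (∀ j, MemLp (f j) ∞ μ) → (∀ j, MemLp (e j) ∞ μ) →
      (∀ j, IsUniform μ 𝒴 T m fun x => f j x - e j x) →
      ∀ᵐ x ∂μ, Tendsto (fun N : ℕ => (N : ℂ)⁻¹ * ∑ n ∈ Finset.Icc 1 N,
        (∏ j, f j ((T ^ (a j * n)) x) - ∏ j, e j ((T ^ (a j * n)) x))) atTop (𝓝 0)) ∧
    ((∀ f : X → ℂ, MemLp f ∞ μ → μ[f | 𝒴] =ᵐ[μ] 0 → IsUniform μ 𝒴 T m f) →
      (∀ g : Fin m → X → ℂ, (∀ j, Measurable[𝒴] (g j) ∧ ∃ C : ℝ, ∀ x, ‖g j x‖ ≤ C) →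
        ∀ᵐ x ∂μ, ∃ L : ℂ, Tendsto (fun N : ℕ => (N : ℂ)⁻¹ * ∑ n ∈ Finset.Icc 1 N,
          ∏ j, g j ((T ^ (a j * n)) x)) atTop (𝓝 L)) →
      ∀ f : Fin m → X → ℂ, (∀ j, MemLp (f j) ∞ μ) →
        ∀ᵐ x ∂μ, ∃ L : ℂ, Tendsto (fun N : ℕ => (N : ℂ)⁻¹ * ∑ n ∈ Finset.Icc 1 N,
          ∏ j, f j ((T ^ (a j * n)) x)) atTop (𝓝 L)) := by
  have h2 : ∀ f e : Fin m → X → ℂ, (∀ j, MemLp (f j) ∞ μ) → (∀ j, MemLp (e j) ∞ μ) →
      (∀ j, IsUniform μ 𝒴 T m fun x => f j x - e j x) →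
      ∀ᵐ x ∂μ, Tendsto (fun N : ℕ => (N : ℂ)⁻¹ * ∑ n ∈ Finset.Icc 1 N,
        (∏ j, f j ((T ^ (a j * n)) x) - ∏ j, e j ((T ^ (a j * n)) x))) atTop (𝓝 0) :=
    fun f e hf he h => Pool.Agent.Q96.UN.main_all hT hT' h𝒴 hinv ha hai hf he
      fun j => appr_of (h j)
  refine ⟨fun f hf h => ?_, h2, fun hall hbase f hf => ?_⟩
  · obtain ⟨j, hj⟩ := h
    exact Pool.Agent.Q96.UN.main_one hT hT' h𝒴 hinv ha hai hf j (appr_of hj)
  · exact Pool.Agent.Q96.UN.char_conv hT hT' h𝒴 hf (fun e he hmem hee => h2 f e hf hmem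
      fun j => hall _ ((hf j).sub (hmem j)) (hee j)) hbase

end Pool.Agent.Results.MP_9721b5_an.UniformFunctions
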