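import Pool.Agent.Q197.PS.Z

/-! # Cubic-progression averages along random unions of residue classes

For a set `A` of residues modulo `P` consider the averages `avg u P A N`, that is `1 / N` times the sum of
the `u(n)` over the `n ≤ N` with residue in `A`. (1) A zero-one law for every bounded sequence `u`: if the
averages over all `n` oscillate by `c`, then the averages converge for at most
`108 (1 + 1 / c) 2 ^ P / √P` of the `2 ^ P` sets `A`. (2) The question is equivalent to the statement that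
for all systems, all `f, g, h` and almost every `x` there are arbitrarily large `K` and `P` such that
`K 2 ^ P / √P` of the unions have convergent averages at `x`. -/

set_option autoImplicit false

open Finset Filter Topology MeasureTheory
open scoped ENNReal

namespace Pool.Agent.Results.MP_9721b5_an.UnionsOfClasses

/-- `1 / N` times the sum of the `u n` over the `1 ≤ n ≤ N` with `n mod P ∈ A`. -/
noncomputable def avg (u : ℕ → ℝ) (P : ℕ) (A : Finset ℕ) (N : ℕ) : ℝ :=
  (∑ n ∈ (Icc 1 N).filter (fun n => n % P ∈ A), u n) / N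

/-- The averages over all `n`. -/
noncomputable def avgAll (u : ℕ → ℝ) (N : ℕ) : ℝ := (N : ℝ)⁻¹ * ∑ n ∈ Icc 1 N, u n

/-- The averages along `A` converge. -/
def Converges (u : ℕ → ℝ) (P : ℕ) (A : Finset ℕ) : Prop := ∃ L : ℝ, Tendsto (avg u P A) atTop (𝓝 L)

open Classical in
/-- The number of the sets `A` of residues modulo `P` along which the averages converge. -/
noncomputable def good (u : ℕ → ℝ) (P : ℕ) : ℕ :=
  ((range P).powerset.filter (fun A => Converges u P A)).card

/-- The terms of the averages of the problem at the point `x`. -/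
def cubic {X : Type} (T : X → X) (f g h : X → ℝ) (x : X) (n : ℕ) : ℝ :=
  f (T^[n] x) * g (T^[2 * n] x) * h (T^[3 * n] x)

lemma avgAll_eq (u : ℕ → ℝ) (N : ℕ) : avgAll u N = avg u 1 {0} N := by
  unfold avgAll avg
  rw [filter_true_of_mem (fun n _ => by rw [mem_singleton, Nat.mod_one]), div_eq_inv_mul]

/-- The affirmative answer to the question. -/
def Question : Prop :=
  ∀ (X : Type) [MeasurableSpace X] (μ : Measure X) [IsProbabilityMeasure μ] (T : X → X),
    MeasurePreserving T μ μ →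
    ∀ f g h : X → ℝ, MemLp f ⊤ μ → MemLp g ⊤ μ → MemLp h ⊤ μ →
      ∀ᵐ x ∂μ, ∃ L : ℝ, Tendsto (avgAll (cubic T f g h x)) atTop (𝓝 L)

/-- The same for a small share of the unions of classes. -/
def Weak : Prop :=
  ∀ (X : Type) [MeasurableSpace X] (μ : Measure X) [IsProbabilityMeasure μ] (T : X → X),
    MeasurePreserving T μ μ →
    ∀ f g h : X → ℝ, MemLp f ⊤ μ → MemLp g ⊤ μ → MemLp h ⊤ μ →
      ∀ᵐ x ∂μ, ∀ K : ℝ, ∃ P : ℕ, 0 < P ∧ K * 2 ^ P / √P ≤ good (cubic T f g h x) P

lemma bound {X : Type} [MeasurableSpace X] {μ : Measure X} {T : X → X} (hT : MeasurePreserving T μ μ)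
    {f : X → ℝ} (hf : MemLp f ⊤ μ) : ∃ M : ℝ, 0 ≤ M ∧ ∀ᵐ x ∂μ, ∀ n : ℕ, |f (T^[n] x)| ≤ M := by
  have h1 := hf.2
  rw [eLpNorm_exponent_top] at h1
  obtain ⟨M, hM⟩ : ∃ M : ℝ, M = (eLpNormEssSup f μ).toReal := ⟨_, rfl⟩
  refine ⟨M, hM ▸ ENNReal.toReal_nonneg, ?_⟩
  have h2 : ∀ᵐ x ∂μ, |f x| ≤ M := by
    filter_upwards [enorm_ae_le_eLpNormEssSup f μ] with x hx
    have h3 := ENNReal.toReal_mono h1.ne hx
    rw [← hM] at h3
    simpa using h3
  rw [ae_all_iff]
  intro n
  exact (hT.iterate n).quasiMeasurePreserving.ae h2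

lemma iter_add {X : Type} (T : X → X) (P a m : ℕ) (x : X) : T^[a] ((T^[P])^[m] x) = T^[a + P * m] x := by
  rw [← Function.iterate_mul, ← Function.iterate_add_apply]

open Classical in
theorem result :
    (∀ u : ℕ → ℝ, (∀ n, 1 ≤ n → |u n| ≤ 1) → ∀ c : ℝ, 0 < c →
      (∃ᶠ p : ℕ × ℕ in atTop, c ≤ |avgAll u p.1 - avgAll u p.2|) → ∀ P : ℕ, 0 < P →
        (good u P : ℝ) ≤ 108 * (1 + 1 / c) * 2 ^ P / √P) ∧
    (∀ u : ℕ → ℝ, (∀ n, 1 ≤ n → |u n| ≤ 1) → ∀ c : ℝ, 0 < c → ∀ q j : ℕ,
      (∃ᶠ p : ℕ × ℕ in atTop, c ≤ |avg u q {j} p.1 - avg u q {j} p.2|) → ∀ P : ℕ, 0 < P → q ∣ P →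
        (good u P : ℝ) ≤ 108 * (1 + 1 / c) * 2 ^ P / √P) ∧
    (∀ (X : Type) [MeasurableSpace X] (μ : Measure X) [IsProbabilityMeasure μ] (T : X → X),
      MeasurePreserving T μ μ → ∀ f g h : X → ℝ, MemLp f ⊤ μ → MemLp g ⊤ μ → MemLp h ⊤ μ →
      ∀ᵐ x ∂μ, (∀ K : ℝ, ∃ P : ℕ, 0 < P ∧ K * 2 ^ P / √P ≤ good (cubic T f g h x) P) →
        ∃ L : ℝ, Tendsto (avgAll (cubic T f g h x)) atTop (𝓝 L)) ∧
    (Question ↔ Weak) := by
  have hmain : ∀ (X : Type) [MeasurableSpace X] (μ : Measure X) [IsProbabilityMeasure μ] (T : X → X),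
      MeasurePreserving T μ μ → ∀ f g h : X → ℝ, MemLp f ⊤ μ → MemLp g ⊤ μ → MemLp h ⊤ μ →
      ∀ᵐ x ∂μ, (∀ K : ℝ, ∃ P : ℕ, 0 < P ∧ K * 2 ^ P / √P ≤ good (cubic T f g h x) P) →
        ∃ L : ℝ, Tendsto (avgAll (cubic T f g h x)) atTop (𝓝 L) := by
    intro X _ μ _ T hT f g h hf hg hh
    obtain ⟨Mf, hMf, h1⟩ := bound hT hf
    obtain ⟨Mg, hMg, h2⟩ := bound hT hg
    obtain ⟨Mh, hMh, h3⟩ := bound hT hh
    filter_upwards [h1, h2, h3] with x hx1 hx2 hx3 hK
    have h4 : Q197.PS.Conv (cubic T f g h x) 1 {0} := by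
      refine Q197.PS.conv_of_many (M := Mf * Mg * Mh) (fun n _ => ?_) (q := 1) {0} (fun K => ?_)
      · unfold cubic
        rw [abs_mul, abs_mul]
        exact mul_le_mul (mul_le_mul (hx1 _) (hx2 _) (abs_nonneg _) hMf) (hx3 _) (abs_nonneg _)
          (mul_nonneg hMf hMg)
      · obtain ⟨P, hP, h5⟩ := hK K
        exact ⟨P, hP, one_dvd P, h5⟩
    obtain ⟨L, hL⟩ := h4
    refine ⟨L, hL.congr fun N => ?_⟩
    rw [avgAll_eq]
    rfl
  refine ⟨fun u hu c hc hfr P hP => ?_, fun u hu c hc q j hfr P hP hd => ?_, hmain, ?_, ?_⟩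
  · simp only [avgAll_eq] at hfr
    exact Q197.PS.few_conv hu hc 1 {0} hfr hP (one_dvd P)
  · exact Q197.PS.few_conv hu hc q {j} hfr hP hd
  · intro hQ X _ μ _ T hT f g h hf hg hh
    have hcl : ∀ᵐ x ∂μ, ∀ P : ℕ, 0 < P → ∀ j : ℕ, 1 ≤ j → j ≤ P →
        ∃ L : ℝ, Tendsto (fun N : ℕ => Q197.PS.cav (cubic T f g h x) P N (j % P)) atTop (𝓝 L) := by
      rw [ae_all_iff]
      intro P
      by_cases hP : 0 < P
      swap
      · exact Eventually.of_forall fun x h' => absurd h' hP
      have h1 : ∀ᵐ x ∂μ, ∀ j : ℕ, 1 ≤ j → j ≤ P →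
          ∃ L : ℝ, Tendsto (fun N : ℕ => Q197.PS.cav (cubic T f g h x) P N (j % P)) atTop (𝓝 L) := by
        rw [ae_all_iff]
        intro j
        by_cases hj : 1 ≤ j ∧ j ≤ P
        swap
        · exact Eventually.of_forall fun x h1 h2 => absurd ⟨h1, h2⟩ hj
        have h2 := hQ X μ (T^[P]) (hT.iterate P) (f ∘ T^[j]) (g ∘ T^[2 * j]) (h ∘ T^[3 * j])
          (hf.comp_measurePreserving (hT.iterate _)) (hg.comp_measurePreserving (hT.iterate _))
          (hh.comp_measurePreserving (hT.iterate _))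
        filter_upwards [h2] with x hx _ _
        obtain ⟨L, hL⟩ := hx
        refine ⟨L / P, Q197.PS.class_conv _ hP hj.1 hj.2 ?_⟩
        refine hL.congr fun M => ?_
        unfold avgAll cubic
        congr 1
        refine sum_congr rfl fun m _ => ?_
        simp only [Function.comp_apply]
        rw [iter_add, iter_add, iter_add]
        congr 3
        · congr 1
          congr 1
          ring
        · congr 1
          ring
      filter_upwards [h1] with x hx _
      exact hx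
    filter_upwards [hcl] with x hx K
    obtain ⟨P, hP, _, hK⟩ := Q197.PS.sqrt_large 1 one_pos K
    refine ⟨P, hP, hK.trans (le_of_eq ?_)⟩
    have h3 : good (cubic T f g h x) P = 2 ^ P := by
      unfold good
      rw [filter_eq_self.2, card_powerset, card_range]
      intro A hA
      rw [mem_powerset] at hA
      have h4 : ∀ j ∈ A, ∃ L : ℝ, Tendsto (fun N : ℕ => Q197.PS.cav (cubic T f g h x) P N j) atTop (𝓝 L) := by
        intro j hj
        have hjP := mem_range.1 (hA hj)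
        rcases Nat.eq_zero_or_pos j with h5 | h5
        · have h6 := hx P hP P hP le_rfl
          rw [Nat.mod_self] at h6
          rw [h5]
          exact h6
        · have h6 := hx P hP j h5 hjP.le
          rw [Nat.mod_eq_of_lt hjP] at h6
          exact h6
      choose! L hL using h4
      refine ⟨∑ j ∈ A, L j, ?_⟩
      have h7 : avg (cubic T f g h x) P A = fun N => ∑ j ∈ A, Q197.PS.cav (cubic T f g h x) P N j :=
        funext fun N => Q197.PS.av_eq _ P A N
      rw [h7]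
      exact tendsto_finsetSum _ fun j hj => hL j hj
    rw [h3]
    push_cast
    ring
  · intro hW X _ μ _ T hT f g h hf hg hh
    filter_upwards [hmain X μ T hT f g h hf hg hh, hW X μ T hT f g h hf hg hh] with x h1 h2
    exact h1 h2

end Pool.Agent.Results.MP_9721b5_an.UnionsOfClasses
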